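import Pool.Agent.W610.HY.Stm4

/-!
# Project HY, part NZ2: if the integral vanishes, every point inside the circle is in the local
resolvent set
-/

set_option autoImplicit false

namespace Pool.Agent.W372.HY.NZ2

open Pool.Agent.W610.HY
open MeasureTheory Set Metric Filter Topology

/-- the measure on the circle (angles) -/
noncomputable abbrev mu : Measure ℝ := volume.restrict (Ioc (0:ℝ) (2 * Real.pi))

theorem norm_u (θ : ℝ) : ‖circleMap 0 1 θ‖ = 1 := by
  simp [circleMap]

theorem norm_sub_c (c : ℂ) (r θ : ℝ) (hr : 0 < r) : ‖circleMap c r θ - c‖ = r := by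
  have h1 : circleMap c r θ - c = r * circleMap 0 1 θ := by simp [circleMap]
  rw [h1, norm_mul, norm_u, Complex.norm_real, mul_one, Real.norm_eq_abs, abs_of_pos hr]

theorem far (c l : ℂ) (r θ : ℝ) (hr : 0 < r) : r - ‖l - c‖ ≤ ‖circleMap c r θ - l‖ := by
  have h1 : circleMap c r θ - c = (circleMap c r θ - l) + (l - c) := by ring
  have h2 := norm_add_le (circleMap c r θ - l) (l - c)
  rw [← h1, norm_sub_c c r θ hr] at h2
  linarith

theorem ne_l (c l : ℂ) (r θ : ℝ) (hr : 0 < r) (hl : ‖l - c‖ < r) : circleMap c r θ - l ≠ 0 := by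
  intro h
  have := far c l r θ hr
  rw [h, norm_zero] at this
  linarith

section
variable {E : Type} [NormedAddCommGroup E] [NormedSpace ℂ E] [CompleteSpace E]

theorem meas_inv (c l : ℂ) (r : ℝ) :
    Measurable (fun θ : ℝ => (circleMap c r θ - l)⁻¹) :=
  ((continuous_circleMap c r).measurable.sub_const l).inv

theorem integrable_k (c l : ℂ) (r : ℝ) (hr : 0 < r) (hl : ‖l - c‖ < r) (k : ℝ → E)
    (hk : AEStronglyMeasurable k mu) (hb : ∀ᵐ θ ∂mu, ‖k θ‖ ≤ 1) :
    Integrable (fun θ => (circleMap c r θ - l)⁻¹ • k θ) mu := by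
  have hd : 0 < r - ‖l - c‖ := by linarith
  refine Integrable.of_bound ((meas_inv c l r).aestronglyMeasurable.smul hk)
    ((r - ‖l - c‖)⁻¹) ?_
  filter_upwards [hb] with θ hθ
  rw [norm_smul, norm_inv]
  have h1 := far c l r θ hr
  calc ‖circleMap c r θ - l‖⁻¹ * ‖k θ‖ ≤ (r - ‖l - c‖)⁻¹ * 1 := by
        apply mul_le_mul _ hθ (norm_nonneg _) (inv_nonneg.2 hd.le)
        exact inv_anti₀ hd h1
    _ = _ := mul_one _

theorem diff_k (c : ℂ) (r : ℝ) (hr : 0 < r) (k : ℝ → E)
    (hk : AEStronglyMeasurable k mu) (hb : ∀ᵐ θ ∂mu, ‖k θ‖ ≤ 1) :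
    DifferentiableOn ℂ (fun l : ℂ => ∫ θ, (circleMap c r θ - l)⁻¹ • k θ ∂mu) (ball c r) := by
  intro l hl
  rw [mem_ball, dist_eq_norm] at hl
  obtain ⟨d, hd⟩ : ∃ d, d = (r - ‖l - c‖) / 2 := ⟨_, rfl⟩
  have hd0 : 0 < d := by rw [hd]; linarith
  have hin : ∀ x ∈ ball l d, d ≤ r - ‖x - c‖ := by
    intro x hx
    rw [mem_ball, dist_eq_norm] at hx
    have h1 : x - c = (x - l) + (l - c) := by ring
    have h2 := norm_add_le (x - l) (l - c)
    rw [← h1] at h2
    linarith
  have key := hasDerivAt_integral_of_dominated_loc_of_deriv_le (𝕜 := ℂ) (μ := mu)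
    (F := fun x θ => (circleMap c r θ - x)⁻¹ • k θ)
    (F' := fun x θ => (((circleMap c r θ - x) ^ 2)⁻¹) • k θ)
    (x₀ := l) (s := ball l d) (bound := fun _ => (d ^ 2)⁻¹) (ball_mem_nhds l hd0)
    (Eventually.of_forall fun x => (meas_inv c x r).aestronglyMeasurable.smul hk)
    (integrable_k c l r hr hl k hk hb) ?_ ?_ ?_ ?_
  · exact key.2.differentiableAt.differentiableWithinAt
  · refine AEStronglyMeasurable.smul ?_ hk
    exact ((((continuous_circleMap c r).measurable.sub_const l).pow_const 2).inv).aestronglyMeasurable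
  · filter_upwards [hb] with θ hθ
    intro x hx
    have h1 := (hin x hx).trans (far c x r θ hr)
    rw [norm_smul, norm_inv, norm_pow]
    calc (‖circleMap c r θ - x‖ ^ 2)⁻¹ * ‖k θ‖ ≤ (d ^ 2)⁻¹ * 1 := by
          apply mul_le_mul _ hθ (norm_nonneg _) (by positivity)
          exact inv_anti₀ (by positivity) (pow_le_pow_left₀ hd0.le h1 2)
      _ = _ := mul_one _
  · exact integrable_const _
  · refine Eventually.of_forall fun θ x hx => ?_
    have h1 := (hin x hx).trans (far c x r θ hr)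
    have hne : circleMap c r θ - x ≠ 0 := by
      intro h
      rw [h, norm_zero] at h1
      linarith
    have h2 : HasDerivAt (fun x : ℂ => circleMap c r θ - x) (-1) x := by
      simpa using (hasDerivAt_id x).const_sub (circleMap c r θ)
    have h3 := (h2.inv hne).smul_const (k θ)
    refine h3.congr_deriv ?_
    congr 1
    rw [neg_neg, one_div]

end

theorem main : Pool.Agent.W610.HY.NZ2 := by
  intro E _ _ _ T x P f c r h hfm hfP hGW hIV a ha
  obtain ⟨hG, hW⟩ := hGW
  have hr := hG.pos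
  have hcm : Continuous (circleMap c r) := continuous_circleMap c r
  have hcm0 : Continuous (circleMap 0 1) := continuous_circleMap 0 1
  have hpi : (0:ℝ) ≤ 2 * Real.pi := Real.two_pi_pos.le
  -- the two bounded functions
  obtain ⟨k1, hk1⟩ : ∃ k1 : ℝ → ℂ, k1 = fun θ => h θ * circleMap 0 1 θ := ⟨_, rfl⟩
  obtain ⟨k2, hk2⟩ : ∃ k2 : ℝ → E, k2 = fun θ => (h θ * circleMap 0 1 θ) • f (circleMap c r θ) :=
    ⟨_, rfl⟩
  have hk1m : AEStronglyMeasurable k1 mu := by
    rw [hk1]; exact (hG.meas.mul hcm0.measurable).aestronglyMeasurable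
  have hfc : AEStronglyMeasurable (fun θ => f (circleMap c r θ)) mu :=
    (hfm.comp_measurable hcm.measurable).aestronglyMeasurable
  have hk2m : AEStronglyMeasurable k2 mu := by
    rw [hk2]
    exact ((hG.meas.mul hcm0.measurable).aestronglyMeasurable).smul hfc
  have hk1b : ∀ᵐ θ ∂mu, ‖k1 θ‖ ≤ 1 := by
    filter_upwards [hG.le_one] with θ hθ
    rw [hk1]
    show ‖h θ * circleMap 0 1 θ‖ ≤ 1
    rw [norm_mul, norm_u, mul_one]
    exact hθ
  have hk2b : ∀ᵐ θ ∂mu, ‖k2 θ‖ ≤ 1 := by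
    filter_upwards [hG.bound] with θ hθ
    rw [hk2]
    show ‖(h θ * circleMap 0 1 θ) • f (circleMap c r θ)‖ ≤ 1
    rw [norm_smul, norm_mul, norm_u, mul_one]
    exact hθ
  have hk2i : Integrable k2 mu := Integrable.of_bound hk2m 1 hk2b
  have hk2z : ∫ θ, k2 θ ∂mu = 0 := by
    have h1 : (∫ θ in (0:ℝ)..(2 * Real.pi),
      (h θ * circleMap 0 1 θ) • f (circleMap c r θ)) = 0 := hIV
    rw [intervalIntegral.integral_of_le hpi] at h1
    rw [hk2]
    exact h1
  obtain ⟨I, hI⟩ : ∃ I : ℂ → ℂ, I = fun l => ∫ θ, (circleMap c r θ - l)⁻¹ • k1 θ ∂mu := ⟨_, rfl⟩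
  obtain ⟨Φ, hΦ⟩ : ∃ Φ : ℂ → E, Φ = fun l => ∫ θ, (circleMap c r θ - l)⁻¹ • k2 θ ∂mu :=
    ⟨_, rfl⟩
  have hId : DifferentiableOn ℂ I (ball c r) := by rw [hI]; exact diff_k c r hr k1 hk1m hk1b
  have hΦd : DifferentiableOn ℂ Φ (ball c r) := by rw [hΦ]; exact diff_k c r hr k2 hk2m hk2b
  have hI0 : ∀ l ∈ ball c r, I l ≠ 0 := by
    intro l hl
    rw [mem_ball, dist_eq_norm] at hl
    have h1 := hW l hl
    rw [intervalIntegral.integral_of_le hpi] at h1
    intro h2
    apply h1
    refine Eq.trans ?_ h2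
    rw [hI, hk1]
    refine integral_congr_ae (Eventually.of_forall fun θ => ?_)
    simp only [smul_eq_mul]
    rw [div_eq_mul_inv]
    ring
  have hEq : ∀ l ∈ ball c r, l • Φ l - T (Φ l) = I l • x := by
    intro l hl
    rw [mem_ball, dist_eq_norm] at hl
    have hi2 := integrable_k c l r hr hl k2 hk2m hk2b
    have hi1 := integrable_k c l r hr hl k1 hk1m hk1b
    have e1 : l • Φ l - T (Φ l) =
        ∫ θ, (l • ((circleMap c r θ - l)⁻¹ • k2 θ) - T ((circleMap c r θ - l)⁻¹ • k2 θ)) ∂mu := by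
      have hs : Integrable (fun θ => l • ((circleMap c r θ - l)⁻¹ • k2 θ)) mu := hi2.smul l
      have ht : Integrable (fun θ => T ((circleMap c r θ - l)⁻¹ • k2 θ)) mu :=
        T.integrable_comp hi2
      rw [integral_sub hs ht, integral_smul, T.integral_comp_comm hi2, hΦ]
    have e2 : ∫ θ, (l • ((circleMap c r θ - l)⁻¹ • k2 θ) - T ((circleMap c r θ - l)⁻¹ • k2 θ)) ∂mu
        = ∫ θ, (((circleMap c r θ - l)⁻¹ • k1 θ) • x - k2 θ) ∂mu := by
      refine integral_congr_ae ?_
      filter_upwards [hG.res] with θ hθ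
      have hz := hfP _ hθ
      have hne := ne_l c l r θ hr hl
      have hT : T (f (circleMap c r θ)) = circleMap c r θ • f (circleMap c r θ) - x := by
        rw [← hz]; abel
      rw [hk1, hk2]
      simp only [smul_eq_mul]
      rw [map_smul, map_smul, hT]
      have h5 : circleMap c r θ = (circleMap c r θ - l) + l := by ring
      obtain ⟨w, hw⟩ : ∃ w, w = circleMap c r θ - l := ⟨_, rfl⟩
      rw [← hw] at hne ⊢
      have h6 : circleMap c r θ • f (circleMap c r θ) = w • f (circleMap c r θ) +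
          l • f (circleMap c r θ) := by
        rw [← add_smul, hw, sub_add_cancel]
      rw [h6]
      simp only [smul_sub, smul_add, smul_smul]
      have h7 : w⁻¹ * (h θ * circleMap 0 1 θ * w) = h θ * circleMap 0 1 θ := by
        field_simp
      have h8 : l * (w⁻¹ * (h θ * circleMap 0 1 θ)) = w⁻¹ * (h θ * circleMap 0 1 θ * l) := by
        ring
      rw [h7, h8]
      abel
    rw [e1, e2, integral_sub (hi1.smul_const x) hk2i, hk2z, sub_zero, integral_smul_const, hI]
  have hsub : ball a (r - ‖a - c‖) ⊆ ball c r := by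
    intro z hz
    rw [mem_ball, dist_eq_norm] at hz ⊢
    have h1 : z - c = (z - a) + (a - c) := by ring
    have h2 := norm_add_le (z - a) (a - c)
    rw [← h1] at h2
    linarith
  refine ⟨r - ‖a - c‖, fun l => (I l)⁻¹ • Φ l, by linarith, ?_, fun z hz => ?_⟩
  · exact ((hId.mono hsub).inv (fun l hl => hI0 l (hsub hl))).smul (hΦd.mono hsub)
  · have hz' := hsub hz
    have h1 := hEq z hz'
    have h2 := hI0 z hz'
    show z • ((I z)⁻¹ • Φ z) - T ((I z)⁻¹ • Φ z) = x
    rw [map_smul, smul_comm z, ← smul_sub, h1, smul_smul, inv_mul_cancel₀ h2, one_smul]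

end Pool.Agent.W372.HY.NZ2
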